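import Pool.Agent.Helper49.KX.St

/-!
# Project KX: module EVM
-/

set_option autoImplicit false

namespace Pool.Agent.Helper38.KX

open Pool.Agent.Helper49.KX
open Finset Filter Topology MeasureTheory Module

variable {X : Type} [TopologicalSpace X]

theorem cmp_cmp (h : X ≃ₜ X) (m n : ℤ) (f : C(X, ℂ)) : cmp h m (cmp h n f) = cmp h (n + m) f := by
  ext x
  simp only [cmp_apply]
  rw [zpow_add]
  rfl

theorem cmp_zero (h : X ≃ₜ X) (f : C(X, ℂ)) : cmp h 0 f = f := by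
  ext x
  simp only [cmp_apply, zpow_zero]
  rfl

theorem cmp_add (h : X ≃ₜ X) (n : ℤ) (f g : C(X, ℂ)) : cmp h n (f + g) = cmp h n f + cmp h n g := by
  ext x; rfl

theorem cmp_zero' (h : X ≃ₜ X) (n : ℤ) : cmp h n (0 : C(X, ℂ)) = 0 := by
  ext x; rfl

variable {A : Type} [Ring A] [Algebra ℂ A]

theorem cov_zpow (h : X ≃ₜ X) (j : C(X, ℂ) →ₐ[ℂ] A) (U : Aˣ) (hc : Cov h j U) (n : ℤ) (f : C(X, ℂ)) :
    ((U ^ n : Aˣ) : A) * j f = j (cmp h (-n) f) * ((U ^ n : Aˣ) : A) := by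
  have hc' : ∀ f, (U : A) * j f = j (cmp h (-1) f) * U := hc
  have hinv : ∀ f, ((U⁻¹ : Aˣ) : A) * j f = j (cmp h 1 f) * ((U⁻¹ : Aˣ) : A) := by
    intro f
    have h1 := hc' (cmp h 1 f)
    rw [cmp_cmp, show (1 : ℤ) + -1 = 0 by norm_num, cmp_zero] at h1
    have h2 : ((U⁻¹ : Aˣ) : A) * ((U : A) * j (cmp h 1 f)) * ((U⁻¹ : Aˣ) : A)
        = ((U⁻¹ : Aˣ) : A) * (j f * (U : A)) * ((U⁻¹ : Aˣ) : A) := by rw [h1]
    rw [← mul_assoc, Units.inv_mul, one_mul] at h2
    rw [h2, mul_assoc, mul_assoc, Units.mul_inv, mul_one]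
  revert f
  induction n using Int.induction_on with
  | zero => intro f; simp [cmp_zero]
  | succ n ih =>
    intro f
    rw [zpow_add_one, Units.val_mul, mul_assoc, hc' f, ← mul_assoc, ih, cmp_cmp, mul_assoc]
    rw [show (-1 : ℤ) + -(n : ℤ) = -((n : ℤ) + 1) by ring]
  | pred n ih =>
    intro f
    rw [zpow_sub_one, Units.val_mul, mul_assoc, hinv f, ← mul_assoc, ih, cmp_cmp, mul_assoc]
    rw [show (1 : ℤ) + -(-(n : ℤ)) = -(-(n : ℤ) - 1) by ring]

theorem ev_add (j : C(X, ℂ) →ₐ[ℂ] A) (U : Aˣ) (g g' : FS X) : ev j U (g + g') = ev j U g + ev j U g' := by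
  unfold ev
  refine Finsupp.sum_add_index' ?_ ?_
  · intro a; simp
  · intro a b c; rw [map_add, add_mul]

theorem ev_zero (j : C(X, ℂ) →ₐ[ℂ] A) (U : Aˣ) : ev j U (0 : FS X) = 0 := by
  unfold ev
  exact Finsupp.sum_zero_index

/-- `ev` as an additive homomorphism -/
noncomputable def evh (j : C(X, ℂ) →ₐ[ℂ] A) (U : Aˣ) : FS X →+ A where
  toFun := ev j U
  map_zero' := ev_zero j U
  map_add' := ev_add j U

theorem evh_apply (j : C(X, ℂ) →ₐ[ℂ] A) (U : Aˣ) (g : FS X) : evh j U g = ev j U g := rfl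

theorem ev_single (j : C(X, ℂ) →ₐ[ℂ] A) (U : Aˣ) (n : ℤ) (f : C(X, ℂ)) :
    ev j U (Finsupp.single n f) = j f * ((U ^ n : Aˣ) : A) := by
  unfold ev
  rw [Finsupp.sum_single_index]
  simp

theorem hEVM : StEvm := by
  intro X _ h A _ _ j U hc
  refine ⟨fun n f => cov_zpow h j U hc n f, ev_add j U, ?_, ?_, ?_⟩
  · intro g g'
    have h1 := ev_add j U (g - g') g'
    have h2 : g - g' + g' = g := by
      ext n
      simp
    rw [h2] at h1
    exact eq_sub_of_add_eq h1.symm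
  · show ev j U (Finsupp.single 0 1) = 1
    rw [ev_single]
    simp
  · intro g g'
    have e1 : ev j U (tw h g g') = g.sum fun m f => g'.sum fun n f' =>
        j f * ((U ^ m : Aˣ) : A) * (j f' * ((U ^ n : Aˣ) : A)) := by
      rw [← evh_apply]
      unfold tw
      rw [Finsupp.sum, map_sum, Finsupp.sum]
      refine Finset.sum_congr rfl fun m _ => ?_
      rw [Finsupp.sum, map_sum, Finsupp.sum]
      refine Finset.sum_congr rfl fun n _ => ?_
      rw [evh_apply, ev_single, map_mul, zpow_add, Units.val_mul]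
      have := cov_zpow h j U hc m (g' n)
      calc j (g m) * j (cmp h (-m) (g' n)) * (((U ^ m : Aˣ) : A) * ((U ^ n : Aˣ) : A))
          = j (g m) * (j (cmp h (-m) (g' n)) * ((U ^ m : Aˣ) : A)) * ((U ^ n : Aˣ) : A) := by
            simp only [mul_assoc]
        _ = j (g m) * (((U ^ m : Aˣ) : A) * j (g' n)) * ((U ^ n : Aˣ) : A) := by rw [this]
        _ = j (g m) * ((U ^ m : Aˣ) : A) * (j (g' n) * ((U ^ n : Aˣ) : A)) := by
            simp only [mul_assoc]
    rw [e1]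
    unfold ev
    rw [Finsupp.sum, Finsupp.sum, Finset.sum_mul]
    refine Finset.sum_congr rfl fun m _ => ?_
    rw [Finsupp.sum, Finsupp.sum, Finset.mul_sum]

end Pool.Agent.Helper38.KX
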